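import Pool.Agent.Run7.h276.DX.Iface

set_option autoImplicit false

/-!
Piece GRP of project DX (helper276), written by helper989: a double cover of `G` that is not residually finite.
-/

namespace Run7.h989.DX

open Run7.h276.DX Matrix

theorem mat (N s v c r : ℚ) (hN : N ≠ 0) (hv : v ≠ 0) (h1 : r * c = v + 1) (h2 : r + 1 = N ^ 2 * s) :
    xm (-(N * s) / v) * ym (N * v) * xm (-(N * s * c) / v) * ym N * xm (-(N * s)) * ym (N * c) = 1 := by
  have hs : s = (r + 1) / N ^ 2 := by
    field_simp
    linarith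
  have hv' : v = r * c - 1 := by linarith
  have hx : ∀ a : ℚ, (xm a : Matrix (Fin 2) (Fin 2) ℚ) = !![1, a; 0, 1] := fun a => rfl
  have hy : ∀ a : ℚ, (ym a : Matrix (Fin 2) (Fin 2) ℚ) = !![1, 0; a, 1] := fun a => rfl
  apply Units.ext
  simp only [Units.val_mul, hx, hy, Units.val_one, Matrix.mul_fin_two, Matrix.one_fin_two]
  subst hs
  subst hv'
  congr 1
  ext i j
  fin_cases i <;> fin_cases j <;> simp <;> field_simp <;> ring

theorem T_mem : T ∈ G := Subgroup.subset_closure (Set.mem_union_right _ rfl)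

theorem incl_mem (k : K) : incl k ∈ G := Subgroup.subset_closure (Set.mem_union_left _ ⟨k, rfl⟩)

theorem xm_one_mem : xm 1 ∈ G := by
  have : xm 1 = incl ⟨!![1, 1; 0, 1], by simp⟩ := by
    apply Units.ext
    ext i j
    show (!![1, 1; 0, 1] : Matrix (Fin 2) (Fin 2) ℚ) i j =
      (Int.castRingHom ℚ) ((!![1, 1; 0, 1] : Matrix (Fin 2) (Fin 2) ℤ) i j)
    fin_cases i <;> fin_cases j <;> simp
  rw [this]
  exact incl_mem _

theorem odd_order {Q : Type} [Group Q] [Finite Q] {g t : Q} (h : t * g * t⁻¹ = g ^ 2) : Odd (orderOf g) := by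
  have hN : 0 < orderOf g := orderOf_pos g
  by_contra hc
  rw [Nat.not_odd_iff_even] at hc
  obtain ⟨k, hk⟩ := hc
  have h1 : (t * g * t⁻¹) ^ k = 1 := by
    rw [h, ← pow_mul, two_mul, ← hk, pow_orderOf_eq_one]
  have h2 : g ^ k = 1 := by
    rw [conj_pow] at h1
    have : t * g ^ k = t := by
      calc t * g ^ k = t * g ^ k * t⁻¹ * t := by group
        _ = t := by rw [h1, one_mul]
    simpa using this
  have h3 : orderOf g ∣ k := orderOf_dvd_of_pow_eq_one h2
  have h4 : 0 < k := by omega
  have h5 := Nat.le_of_dvd h4 h3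
  omega

theorem t_GRP (h1 : S_LIFT) (h2 : S_NT) : S_MP := by
  obtain ⟨B, _, p, z, T', w', X, Y, hz1, hker, hpz, hsurj, hT', hw', hX, hY, hXadd, hTX, hYX, hprod⟩ := h1
  have hmem : ∀ b : B, b ∈ G.comap p ↔ p b ∈ G := fun b => Iff.rfl
  have hzE : z ∈ G.comap p := by rw [hmem, hpz]; exact G.one_mem
  have hTE : T' ∈ G.comap p := by rw [hmem, hT']; exact T_mem
  have hwE : w' ∈ G.comap p := by rw [hmem, hw']; exact incl_mem _
  have hXE : X 1 ∈ G.comap p := by rw [hmem, hX]; exact xm_one_mem
  refine ⟨G.comap p, inferInstance, p.subgroupComap G, ?_, ?_, ⟨z, hzE⟩, ?_, ?_⟩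
  · rintro ⟨g, hg⟩
    obtain ⟨b, hb⟩ := hsurj g hg
    refine ⟨⟨b, by rw [hmem, hb]; exact hg⟩, ?_⟩
    exact Subtype.ext hb
  · have hf : ({⟨1, (G.comap p).one_mem⟩, ⟨z, hzE⟩} : Set (G.comap p)).Finite := Set.toFinite _
    refine (hf.subset ?_).to_subtype
    rintro ⟨b, hb⟩ hbk
    have hb1 : p b = 1 := by
      have := congrArg Subtype.val (show p.subgroupComap G ⟨b, hb⟩ = 1 from hbk)
      exact this
    rcases hker b hb1 with h | h
    · left
      exact Subtype.ext h
    · right
      exact Subtype.ext h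
  · intro h
    exact hz1 (congrArg Subtype.val h)
  · intro H hH
    have hfin : H.normalCore.FiniteIndex := inferInstance
    have hnor : H.normalCore.Normal := inferInstance
    refine Subgroup.normalCore_le H ?_
    set H₀ := H.normalCore with hH₀
    -- the subgroup of `B`
    set M : Subgroup B := H₀.map (G.comap p).subtype with hM
    have hMmem : ∀ e : G.comap p, (e : B) ∈ M ↔ e ∈ H₀ := by
      intro e
      rw [hM, Subgroup.mem_map]
      constructor
      · rintro ⟨x, hx, hxe⟩
        have : x = e := Subtype.ext hxe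
        rwa [← this]
      · intro he
        exact ⟨e, he, rfl⟩
    have hconj : ∀ e ∈ G.comap p, ∀ m ∈ M, e * m * e⁻¹ ∈ M := by
      intro e he m hm
      obtain ⟨x, hx, rfl⟩ := hm
      have := hnor.conj_mem x hx ⟨e, he⟩
      exact (hMmem _).2 this
    have hX0 : X 0 = 1 := by
      have h := hXadd 0 0
      rw [add_zero] at h
      exact (mul_eq_left.mp h.symm)
    let Xh : Multiplicative ℚ →* B :=
      { toFun := fun r => X r.toAdd
        map_one' := hX0
        map_mul' := fun r s => hXadd _ _ }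
    have hXz : ∀ (n : ℤ) (r : ℚ), X (n * r) = X r ^ n := by
      intro n r
      have h := map_zpow Xh (Multiplicative.ofAdd r) n
      have h' : Xh (Multiplicative.ofAdd r ^ n) = X (n * r) := by
        show X ((Multiplicative.ofAdd r ^ n).toAdd) = _
        rw [toAdd_zpow]
        simp
      rw [← h', h]
      rfl
    -- the order
    have hq : (QuotientGroup.mk (⟨T', hTE⟩ : G.comap p) : (G.comap p) ⧸ H₀) *
        QuotientGroup.mk (⟨X 1, hXE⟩ : G.comap p) * (QuotientGroup.mk (⟨T', hTE⟩ : G.comap p))⁻¹ =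
        (QuotientGroup.mk (⟨X 1, hXE⟩ : G.comap p) : (G.comap p) ⧸ H₀) ^ 2 := by
      rw [← QuotientGroup.mk_inv, ← QuotientGroup.mk_mul, ← QuotientGroup.mk_mul, ← QuotientGroup.mk_pow]
      congr 1
      apply Subtype.ext
      show T' * X 1 * T'⁻¹ = X 1 ^ 2
      rw [hTX 1, pow_two, ← hXadd]
      norm_num
    have hQf : Finite ((G.comap p) ⧸ H₀) := Subgroup.finite_quotient_of_finiteIndex
    have hodd := odd_order hq
    set N : ℕ := orderOf (QuotientGroup.mk (⟨X 1, hXE⟩ : G.comap p) : (G.comap p) ⧸ H₀) with hN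
    have hXN : X N ∈ M := by
      have e1 : (QuotientGroup.mk ((⟨X 1, hXE⟩ : G.comap p) ^ N) : (G.comap p) ⧸ H₀) = 1 := by
        rw [QuotientGroup.mk_pow, hN, pow_orderOf_eq_one]
      rw [QuotientGroup.eq_one_iff] at e1
      have e2 := (hMmem _).2 e1
      have e3 : X N = X 1 ^ N := by
        have := hXz N 1
        simpa using this
      rw [e3]
      exact e2
    have hXd : ∀ (k : ℕ) (n : ℤ), X (N * n / 2 ^ k) ∈ M := by
      intro k
      induction k with
      | zero =>
        intro n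
        have : X ((N : ℚ) * n / 2 ^ 0) = X N ^ n := by
          rw [← hXz]
          congr 1
          ring
        rw [this]
        exact M.zpow_mem hXN n
      | succ k ih =>
        intro n
        have e : X ((N : ℚ) * n / 2 ^ (k + 1)) = T'⁻¹ * X (N * n / 2 ^ k) * T'⁻¹⁻¹ := by
          have h := hTX ((N : ℚ) * n / 2 ^ (k + 1))
          have h' : (2 : ℚ) * (N * n / 2 ^ (k + 1)) = N * n / 2 ^ k := by
            rw [pow_succ]
            field_simp
          rw [h'] at h
          rw [← h]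
          group
        rw [e]
        exact hconj _ (Subgroup.inv_mem _ hTE) _ (ih n)
    have hYd : ∀ (n : ℤ), Y (N * n) ∈ M := by
      intro n
      rw [hYX]
      refine hconj _ hwE _ ?_
      have := hXd 0 (-n)
      have e : (N : ℚ) * ((-n : ℤ) : ℚ) / 2 ^ 0 = -(N * n) := by
        push_cast
        ring
      rwa [e] at this
    obtain ⟨r, c, g, s, hr, hrc, hrs⟩ := h2 N hodd
    have hN0 : 0 < N := hodd.pos
    have hc0 : 0 < c := by
      rcases Nat.eq_zero_or_pos c with h | h
      · subst h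
        simp at hrc
      · exact h
    have hNq : (0 : ℚ) < N := by exact_mod_cast hN0
    have hcq : (0 : ℚ) < c := by exact_mod_cast hc0
    have hvq : (0 : ℚ) < 2 ^ g := by positivity
    have hrcq : (r : ℚ) * c = 2 ^ g + 1 := by exact_mod_cast hrc
    have hrsq : (r : ℚ) + 1 = N ^ 2 * s := by exact_mod_cast hrs
    have hm := mat N s (2 ^ g) c r hNq.ne' hvq.ne' hrcq hrsq
    have hz := hprod _ _ _ _ _ _ (mul_pos hNq hvq) hNq (mul_pos hNq hcq) hm
    refine (hMmem ⟨z, hzE⟩).1 ?_
    show z ∈ M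
    rw [← hz]
    have k1 : X (-(N * s) / 2 ^ g) ∈ M := by
      have := hXd g (-s)
      have e : (N : ℚ) * ((-s : ℤ) : ℚ) / 2 ^ g = -(N * s) / 2 ^ g := by
        push_cast
        ring
      rwa [e] at this
    have k2 : Y (N * 2 ^ g) ∈ M := by
      have := hYd (2 ^ g)
      have e : (N : ℚ) * (((2 : ℤ) ^ g : ℤ) : ℚ) = N * 2 ^ g := by
        push_cast
        ring
      rwa [e] at this
    have k3 : X (-(N * s * c) / 2 ^ g) ∈ M := by
      have := hXd g (-(s * c))
      have e : (N : ℚ) * ((-(s * c) : ℤ) : ℚ) / 2 ^ g = -(N * s * c) / 2 ^ g := by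
        push_cast
        ring
      rwa [e] at this
    have k4 : Y (N : ℚ) ∈ M := by
      have := hYd 1
      have e : (N : ℚ) * ((1 : ℤ) : ℚ) = N := by
        push_cast
        ring
      rwa [e] at this
    have k5 : X (-(N * s)) ∈ M := by
      have := hXd 0 (-s)
      have e : (N : ℚ) * ((-s : ℤ) : ℚ) / 2 ^ 0 = -(N * s) := by
        push_cast
        ring
      rwa [e] at this
    have k6 : Y (N * c) ∈ M := by
      have := hYd c
      have e : (N : ℚ) * ((c : ℤ) : ℚ) = N * c := by
        push_cast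
        ring
      rwa [e] at this
    exact M.mul_mem (M.mul_mem (M.mul_mem (M.mul_mem (M.mul_mem k1 k2) k3) k4) k5) k6

end Run7.h989.DX
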